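import Pool.Agent.Helper70.OB.Goals

/-!
# OB-BND: bounds near `0` for the radial system
-/

namespace Pool.Agent.Helper16.OB

open MeasureTheory Set Filter
open scoped Topology
open Pool.Agent.Helper70.OB

/-- `∫_r^1 t^(-q) ≤ r^(-(q-1))` for `q ≠ 1` (natural subtraction). -/
lemma int_inv_pow (q : ℕ) (hq : q ≠ 1) {r : ℝ} (hr : 0 < r) (hr1 : r ≤ 1) :
    ∫ t in r..1, 1 / t ^ q ≤ 1 / r ^ (q - 1) := by
  rcases Nat.eq_zero_or_pos q with rfl | hq0
  · simp
    linarith
  · obtain ⟨p, rfl⟩ : ∃ p, q = p + 2 := ⟨q - 2, by omega⟩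
    have hder : ∀ t ∈ uIcc r 1, HasDerivAt (fun t : ℝ => -(1 / ((p : ℝ) + 1)) * (1 / t ^ (p + 1)))
        (1 / t ^ (p + 2)) t := by
      intro t ht
      rw [uIcc_of_le hr1] at ht
      have ht0 : 0 < t := lt_of_lt_of_le hr ht.1
      have h1 := ((hasDerivAt_pow (p + 1) t).inv (pow_ne_zero (p + 1) ht0.ne')).const_mul
        (-(1 / ((p : ℝ) + 1)))
      have h2 : (fun t : ℝ => -(1 / ((p : ℝ) + 1)) * (1 / t ^ (p + 1))) =
          fun t : ℝ => -(1 / ((p : ℝ) + 1)) * (fun t : ℝ => t ^ (p + 1))⁻¹ t := by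
        funext t
        simp [one_div]
      rw [h2]
      refine h1.congr_deriv ?_
      simp only [Nat.add_sub_cancel]
      push_cast
      field_simp
      ring
    have hcont : ContinuousOn (fun t : ℝ => 1 / t ^ (p + 2)) (uIcc r 1) := by
      rw [uIcc_of_le hr1]
      intro t ht
      have ht0 : 0 < t := lt_of_lt_of_le hr ht.1
      exact (continuousAt_const.div (continuousAt_id.pow _)
        (pow_ne_zero _ ht0.ne')).continuousWithinAt
    rw [intervalIntegral.integral_eq_sub_of_hasDerivAt hder hcont.intervalIntegrable]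
    have h3 : 0 < 1 / r ^ (p + 1) := by positivity
    have h4 : 1 / ((p : ℝ) + 1) ≤ 1 := by
      rw [div_le_one (by positivity)]
      have : (0 : ℝ) ≤ p := p.cast_nonneg
      linarith
    have h5 : 0 < 1 / ((p : ℝ) + 1) := by positivity
    have h6 : p + 2 - 1 = p + 1 := by omega
    rw [h6]
    simp only [one_pow, div_one, mul_one]
    nlinarith

/-- From a lower bound for the flux to an upper bound for the potential. -/
lemma V_upper {k : ℕ} {V P : ℕ → ℝ → ℝ} {m : ℝ → ℝ} (h : Chain k V P m) (j : ℕ) (hj : j < k)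
    (A : ℝ) (hA : 0 ≤ A)
    (hP : ∀ t : ℝ, 0 < t → t ≤ 1 → -(A * t ^ (2 * k - 2 - 2 * j)) ≤ P j t) :
    ∀ r : ℝ, 0 < r → r ≤ 1 → V j r ≤ (|V j 1| + A) / r ^ (2 * j - 1) := by
  intro r hr hr1
  have h1 := h.der j hj r 1 hr hr1
  have hle : -(A * ∫ t in r..1, 1 / t ^ (2 * j)) ≤ ∫ t in r..1, P j t / t ^ (2 * k - 2) := by
    rw [← intervalIntegral.integral_const_mul, ← intervalIntegral.integral_neg]
    apply intervalIntegral.integral_mono_on_of_le_Ioo hr1
    · have hcont : ContinuousOn (fun t : ℝ => -(A * (1 / t ^ (2 * j)))) (uIcc r 1) := by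
        rw [uIcc_of_le hr1]
        intro t ht
        have ht0 : 0 < t := lt_of_lt_of_le hr ht.1
        exact (continuousAt_const.mul (continuousAt_const.div (continuousAt_id.pow _)
          (pow_ne_zero _ ht0.ne'))).neg.continuousWithinAt
      exact hcont.intervalIntegrable
    · exact h.pint j hj r 1 hr hr1
    · intro t ht
      have ht0 : 0 < t := lt_trans hr ht.1
      have h2 := hP t ht0 ht.2.le
      have h3 : t ^ (2 * k - 2) = t ^ (2 * k - 2 - 2 * j) * t ^ (2 * j) := by
        rw [← pow_add]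
        congr 1
        omega
      rw [le_div_iff₀ (by positivity), h3]
      refine le_trans (le_of_eq ?_) h2
      field_simp
  have h4 := int_inv_pow (2 * j) (by omega) hr hr1
  have h5 : V j r ≤ V j 1 + A * (1 / r ^ (2 * j - 1)) := by
    have := mul_le_mul_of_nonneg_left h4 hA
    linarith
  have h6 : 1 ≤ 1 / r ^ (2 * j - 1) := by
    rw [le_div_iff₀ (by positivity), one_mul]
    exact pow_le_one₀ hr.le hr1
  have h7 : V j 1 ≤ |V j 1| * (1 / r ^ (2 * j - 1)) :=
    le_trans (le_abs_self _) (le_mul_of_one_le_right (abs_nonneg _) h6)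
  calc V j r ≤ V j 1 + A * (1 / r ^ (2 * j - 1)) := h5
    _ ≤ |V j 1| * (1 / r ^ (2 * j - 1)) + A * (1 / r ^ (2 * j - 1)) := by linarith
    _ = (|V j 1| + A) / r ^ (2 * j - 1) := by ring

lemma pow_int {r : ℝ} (e : ℕ) : IntervalIntegrable (fun u : ℝ => u ^ e) volume 0 r :=
  (continuous_pow e).intervalIntegrable _ _

/-- Integrability of the flux integrand. -/
lemma flux_int {k : ℕ} {V P : ℕ → ℝ → ℝ} {m : ℝ → ℝ} (h : Chain k V P m) (j : ℕ) (hj : j + 1 < k)
    (r : ℝ) (hr : 0 < r) :
    IntervalIntegrable (fun u => u ^ (2 * k - 2) * (V j u - V (j + 1) u)) volume 0 r := by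
  have h1 := (h.int j (by omega) r hr).sub (h.int (j + 1) hj r hr)
  refine h1.congr_ae (Eventually.of_forall fun u => ?_)
  simp only
  ring

/-- Upper bounds for the potentials, descending induction. -/
lemma upper_all {k : ℕ} {V P : ℕ → ℝ → ℝ} {m : ℝ → ℝ} (h : Chain k V P m) :
    ∀ i : ℕ, i < k → ∃ C : ℝ, 0 ≤ C ∧ ∀ r : ℝ, 0 < r → r ≤ 1 →
      V (k - 1 - i) r ≤ C / r ^ (2 * (k - 1 - i) - 1) := by
  have hk := h.two_le
  intro i
  induction i with
  | zero =>
    intro _
    obtain ⟨C, hC⟩ := h.mbdd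
    have hC0 : 0 ≤ C := le_trans (h.nonneg 1) (hC 1)
    refine ⟨|V (k - 1) 1| + C, by positivity, ?_⟩
    rw [Nat.sub_zero]
    apply V_upper h (k - 1) (by omega) C hC0
    intro t ht ht1
    rw [h.top t ht]
    have h1 : 0 ≤ ∫ u in (0 : ℝ)..t, u ^ (2 * k - 2) * (V (k - 1) u + 1) := by
      apply intervalIntegral.integral_nonneg ht.le
      intro u hu
      rcases hu.1.eq_or_lt with h0 | h0
      · rw [← h0, zero_pow (by omega), zero_mul]
      · have := h.ge (k - 1) (by omega) u h0
        have h2 : 0 ≤ V (k - 1) u + 1 := by linarith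
        positivity
    have h2 : 2 * k - 2 - 2 * (k - 1) = 0 := by omega
    rw [h2, pow_zero, mul_one]
    have := hC t
    linarith
  | succ i ih =>
    intro hi
    obtain ⟨C, hC0, hC⟩ := ih (by omega)
    set j := k - 1 - (i + 1) with hj
    have hj1 : k - 1 - i = j + 1 := by omega
    rw [hj1] at hC
    refine ⟨|V j 1| + (1 + C), by positivity, ?_⟩
    apply V_upper h j (by omega) (1 + C) (by positivity)
    intro t ht ht1
    rw [h.flux j (by omega) t ht]
    obtain ⟨p, hp⟩ : ∃ p, 2 * k - 2 - 2 * j = p + 1 := ⟨2 * k - 2 - 2 * j - 1, by omega⟩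
    rw [hp]
    have h1 : ∫ _u in (0 : ℝ)..t, -((1 + C) * t ^ p) ≤
        ∫ u in (0 : ℝ)..t, u ^ (2 * k - 2) * (V j u - V (j + 1) u) := by
      apply intervalIntegral.integral_mono_on_of_le_Ioo ht.le
      · exact intervalIntegrable_const
      · exact flux_int h j (by omega) t ht
      · intro u hu
        have hu0 : 0 < u := hu.1
        have hu1 : u ≤ 1 := hu.2.le.trans ht1
        have h2 := h.ge j (by omega) u hu0
        have h3 := hC u hu0 hu1
        have h4 : 2 * (j + 1) - 1 = 2 * j + 1 := by omega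
        rw [h4] at h3
        have h5 : u ^ (2 * k - 2) = u ^ p * u ^ (2 * j + 1) := by
          rw [← pow_add]
          congr 1
          omega
        have h6 : u ^ (2 * k - 2) * (-1 - C / u ^ (2 * j + 1)) ≤
            u ^ (2 * k - 2) * (V j u - V (j + 1) u) :=
          mul_le_mul_of_nonneg_left (by linarith) (by positivity)
        refine le_trans ?_ h6
        have h7 : u ^ (2 * k - 2) * (-1 - C / u ^ (2 * j + 1)) =
            -(u ^ p * u ^ (2 * j + 1) + C * u ^ p) := by
          rw [h5]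
          field_simp
          ring
        rw [h7]
        apply neg_le_neg
        have h8 : u ^ p ≤ t ^ p := pow_le_pow_left₀ hu0.le hu.2.le p
        have h9 : u ^ (2 * j + 1) ≤ 1 := pow_le_one₀ hu0.le hu1
        have h10 : u ^ p * u ^ (2 * j + 1) ≤ t ^ p * 1 :=
          mul_le_mul h8 h9 (by positivity) (by positivity)
        have h11 := mul_le_mul_of_nonneg_left h8 hC0
        linarith
    rw [intervalIntegral.integral_const, smul_eq_mul, sub_zero] at h1
    refine le_trans (le_of_eq ?_) h1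
    rw [pow_succ]
    ring

/-- BND. -/
theorem bnd : BND := by
  intro k V P m h
  have hk := h.two_le
  have hup : ∀ j : ℕ, ∃ C : ℝ, 0 ≤ C ∧ (j < k → ∀ r : ℝ, 0 < r → r ≤ 1 →
      V j r ≤ C / r ^ (2 * j - 1)) := by
    intro j
    by_cases hj : j < k
    · obtain ⟨C, h0, hC⟩ := upper_all h (k - 1 - j) (by omega)
      have h1 : k - 1 - (k - 1 - j) = j := by omega
      rw [h1] at hC
      exact ⟨C, h0, fun _ => hC⟩
    · exact ⟨0, le_rfl, fun h => absurd h hj⟩
  choose Cf hCf0 hCf using hup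
  set C : ℝ := 1 + ∑ j ∈ Finset.range k, Cf j with hCdef
  have hC1 : 1 ≤ C := by
    have : 0 ≤ ∑ j ∈ Finset.range k, Cf j := Finset.sum_nonneg fun j _ => hCf0 j
    linarith
  have hVabs : ∀ j < k, ∀ r : ℝ, 0 < r → r ≤ 1 → |V j r| ≤ C / r ^ (2 * j - 1) := by
    intro j hj r hr hr1
    have h6 : 1 ≤ 1 / r ^ (2 * j - 1) := by
      rw [le_div_iff₀ (by positivity), one_mul]
      exact pow_le_one₀ hr.le hr1
    rw [abs_le]
    constructor
    · have h1 := h.ge j hj r hr
      have h2 : 1 ≤ C / r ^ (2 * j - 1) := by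
        calc (1 : ℝ) ≤ 1 / r ^ (2 * j - 1) := h6
          _ ≤ C / r ^ (2 * j - 1) := div_le_div_of_nonneg_right hC1 (by positivity)
      linarith
    · refine (hCf j hj r hr hr1).trans ?_
      apply div_le_div_of_nonneg_right _ (by positivity)
      have h3 : Cf j ≤ ∑ j ∈ Finset.range k, Cf j :=
        Finset.single_le_sum (f := Cf) (fun i _ => hCf0 i) (Finset.mem_range.2 hj)
      linarith
  refine ⟨⟨2 * C, by linarith, ?_⟩, ?_⟩
  · intro r hr hr1
    refine ⟨?_, ?_⟩
    · intro j hj
      refine (hVabs j hj r hr hr1).trans ?_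
      apply div_le_div_of_nonneg_right _ (by positivity)
      linarith
    · intro j hj
      rw [h.flux j hj r hr]
      obtain ⟨p, hp⟩ : ∃ p, 2 * k - 2 - 2 * j = p + 1 := ⟨2 * k - 2 - 2 * j - 1, by omega⟩
      rw [hp]
      have h1 : ∀ u ∈ uIoc (0 : ℝ) r, ‖u ^ (2 * k - 2) * (V j u - V (j + 1) u)‖ ≤ 2 * C * r ^ p := by
        intro u hu
        rw [uIoc_of_le hr.le] at hu
        have hu0 : 0 < u := hu.1
        have hu1 : u ≤ 1 := hu.2.trans hr1
        rw [Real.norm_eq_abs, abs_mul, abs_of_nonneg (by positivity : (0 : ℝ) ≤ u ^ (2 * k - 2))]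
        have h2 := hVabs j (by omega) u hu0 hu1
        have h3 := hVabs (j + 1) hj u hu0 hu1
        have h4 : 2 * (j + 1) - 1 = 2 * j + 1 := by omega
        rw [h4] at h3
        have h5 : u ^ (2 * k - 2) = u ^ p * u ^ (2 * j + 1) := by
          rw [← pow_add]
          congr 1
          omega
        have h6 : C / u ^ (2 * j - 1) ≤ C / u ^ (2 * j + 1) := by
          apply div_le_div_of_nonneg_left (by linarith) (by positivity)
          exact pow_le_pow_of_le_one hu0.le hu1 (by omega)
        have h7 : |V j u - V (j + 1) u| ≤ 2 * C / u ^ (2 * j + 1) := by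
          refine (abs_sub _ _).trans ?_
          calc |V j u| + |V (j + 1) u| ≤ C / u ^ (2 * j + 1) + C / u ^ (2 * j + 1) := by linarith
            _ = 2 * C / u ^ (2 * j + 1) := by ring
        calc u ^ (2 * k - 2) * |V j u - V (j + 1) u| ≤
            u ^ (2 * k - 2) * (2 * C / u ^ (2 * j + 1)) :=
              mul_le_mul_of_nonneg_left h7 (by positivity)
          _ = 2 * C * u ^ p := by
              rw [h5]
              field_simp
          _ ≤ 2 * C * r ^ p := by
              apply mul_le_mul_of_nonneg_left (pow_le_pow_left₀ hu0.le hu.2 p) (by linarith)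
      have h8 := intervalIntegral.norm_integral_le_of_norm_le_const h1
      rw [Real.norm_eq_abs, sub_zero, abs_of_pos hr] at h8
      refine h8.trans (le_of_eq ?_)
      rw [pow_succ]
      ring
  · have h1 : ∀ r : ℝ, 0 < r → r ≤ 1 →
        |∫ u in (0 : ℝ)..r, u ^ (2 * k - 2) * (V (k - 1) u + 1)| ≤ 2 * C * r := by
      intro r hr hr1
      have h2 : ∀ u ∈ uIoc (0 : ℝ) r, ‖u ^ (2 * k - 2) * (V (k - 1) u + 1)‖ ≤ 2 * C := by
        intro u hu
        rw [uIoc_of_le hr.le] at hu
        have hu0 : 0 < u := hu.1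
        have hu1 : u ≤ 1 := hu.2.trans hr1
        rw [Real.norm_eq_abs, abs_mul, abs_of_nonneg (by positivity : (0 : ℝ) ≤ u ^ (2 * k - 2))]
        have h2 := hVabs (k - 1) (by omega) u hu0 hu1
        have h5 : u ^ (2 * k - 2) = u * u ^ (2 * (k - 1) - 1) := by
          rw [← pow_succ']
          congr 1
          omega
        have h9 : 1 ≤ C / u ^ (2 * (k - 1) - 1) := by
          rw [le_div_iff₀ (by positivity), one_mul]
          exact (pow_le_one₀ hu0.le hu1).trans hC1
        have h7 : |V (k - 1) u + 1| ≤ 2 * C / u ^ (2 * (k - 1) - 1) := by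
          refine (abs_add_le _ _).trans ?_
          rw [abs_one]
          calc |V (k - 1) u| + 1 ≤ C / u ^ (2 * (k - 1) - 1) + C / u ^ (2 * (k - 1) - 1) := by
                linarith
            _ = 2 * C / u ^ (2 * (k - 1) - 1) := by ring
        calc u ^ (2 * k - 2) * |V (k - 1) u + 1| ≤
            u ^ (2 * k - 2) * (2 * C / u ^ (2 * (k - 1) - 1)) :=
              mul_le_mul_of_nonneg_left h7 (by positivity)
          _ = 2 * C * u := by
              rw [h5]
              field_simp
          _ ≤ 2 * C * 1 := mul_le_mul_of_nonneg_left hu1 (by linarith)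
          _ = 2 * C := mul_one _
      have h8 := intervalIntegral.norm_integral_le_of_norm_le_const h2
      rwa [Real.norm_eq_abs, sub_zero, abs_of_pos hr] at h8
    have h3 : Tendsto (fun r : ℝ => ∫ u in (0 : ℝ)..r, u ^ (2 * k - 2) * (V (k - 1) u + 1))
        (𝓝[>] 0) (𝓝 0) := by
      have h4 : Tendsto (fun r : ℝ => 2 * C * r) (𝓝[>] 0) (𝓝 0) := by
        have h5 : Tendsto (fun r : ℝ => 2 * C * r) (𝓝 0) (𝓝 (2 * C * 0)) :=
          (continuous_const.mul continuous_id).tendsto 0
        rw [mul_zero] at h5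
        exact h5.mono_left nhdsWithin_le_nhds
      refine squeeze_zero_norm' ?_ h4
      have h6 : ∀ᶠ r : ℝ in 𝓝[>] 0, r ∈ Ioc (0 : ℝ) 1 := Ioc_mem_nhdsGT (by norm_num)
      filter_upwards [h6] with r hr
      rw [Real.norm_eq_abs]
      exact h1 r hr.1 hr.2
    have h7 := h3.sub h.zero
    rw [sub_zero] at h7
    refine h7.congr' ?_
    filter_upwards [self_mem_nhdsWithin] with r hr
    exact (h.top r hr).symm

end Pool.Agent.Helper16.OB
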